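import Mathlib
import Pool.Agent.W1.PatLaw

/-!
# The joint count for inclusions of pattern languages

An alignment is a monotone path `α`. Its first passages through the levels `1, ..., m` happen at
positions `i_v` determined by `v` and the offset `α (i_v)`; the letter at a crossing is predicted by
the first occurrence `fo q i_v` of the same symbol. The multiset of the `2 m` offsets at the crossings
and at their sources determines all of them.
-/

namespace Pool.Agent.TH657.Pat

open Finset

section abstr

variable {m : ℕ} (S : Fin m → ℕ → Set ℕ) (e : ℕ → ℕ)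

/-- a path with its first passages `i` and offsets -/
structure Pth (m : ℕ) (S : Fin m → ℕ → Set ℕ) (α : ℕ → ℕ) (i : Fin m → ℕ) : Prop where
  mono : Monotone α
  imono : Monotone i
  mem : ∀ v, i v ∈ S v (α (i v))
  cr : ∀ v, i v = sInf (S v (α (i v)))
  first : ∀ v x, x < i v → x ∉ S v (α x)

/-- the values at the marks -/
def val {m : ℕ} (e : ℕ → ℕ) (α : ℕ → ℕ) (i : Fin m → ℕ) : Fin m ⊕ Fin m → ℕ :=
  Sum.elim (fun v => α (i v)) (fun v => α (e (i v)))

variable {S e}

/-- one direction of the comparison of the crossings -/
lemma step_lt (hS : ∀ v a a', a ≤ a' → S v a' ⊆ S v a) (he : ∀ x, e x ≤ x) {α α' : ℕ → ℕ}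
    {i i' : Fin m → ℕ} (h : Pth m S α i) (h' : Pth m S α' i') (v : Fin m)
    (heq : ∀ w, v < w → i w = i' w) (hlt : α (i v) < α' (i' v)) :
    (univ.filter fun z => α (i v) < val e α i z).card <
      (univ.filter fun z => α (i v) < val e α' i' z).card := by
  classical
  have hii : i v ≤ i' v := by
    rw [h.cr v]
    exact Nat.sInf_le (hS v _ _ hlt.le (h'.mem v))
  have hafter : ∀ x, i v ≤ x → i v < x ∨ i' v ≤ x → α (i v) < α' x := by
    intro x hx hx2
    by_cases h1 : i' v ≤ x
    · exact lt_of_lt_of_le hlt (h'.mono h1)
    · have hx3 : i v < x := by omega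
      have h2 : i v < i' v := by omega
      have h3 : α (i v) < α' (i v) := by
        by_contra h4
        push Not at h4
        exact h'.first v (i v) h2 (hS v _ _ h4 (h.mem v))
      exact lt_of_lt_of_le h3 (h'.mono hx3.le)
  apply Finset.card_lt_card
  rw [Finset.ssubset_iff_of_subset]
  · refine ⟨Sum.inl v, Finset.mem_filter.mpr ⟨mem_univ _, hlt⟩, fun h0 => ?_⟩
    have h1 : α (i v) < α (i v) := (Finset.mem_filter.mp h0).2
    omega
  · intro z hz
    have hz' := (Finset.mem_filter.mp hz).2
    refine Finset.mem_filter.mpr ⟨mem_univ _, ?_⟩
    rcases z with w | w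
    · have hz2 : α (i v) < α (i w) := hz'
      show α (i v) < α' (i' w)
      have hw : v < w := by
        by_contra h1
        push Not at h1
        have := h.mono (h.imono h1)
        omega
      exact lt_of_lt_of_le hlt (h'.mono (h'.imono hw.le))
    · have hz2 : α (i v) < α (e (i w)) := hz'
      show α (i v) < α' (e (i' w))
      have h1 : i v < e (i w) := by
        by_contra h2
        push Not at h2
        have := h.mono h2
        omega
      have hw : v < w := by
        by_contra h2
        push Not at h2
        have h3 := h.imono h2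
        have h4 := he (i w)
        omega
      rw [← heq w hw]
      exact hafter _ h1.le (Or.inl h1)

lemma step_eq {α α' : ℕ → ℕ} (hα : Monotone α) (hα' : Monotone α') {i : Fin m → ℕ}
    (z : Fin m ⊕ Fin m) (hlt : val e α i z < val e α' i z) :
    (univ.filter fun y => val e α i z < val e α i y).card <
      (univ.filter fun y => val e α i z < val e α' i y).card := by
  classical
  let pos : Fin m ⊕ Fin m → ℕ := Sum.elim i fun v => e (i v)
  have hv : ∀ (β : ℕ → ℕ) y, val e β i y = β (pos y) := by
    intro β y
    rcases y with w | w <;> rfl
  apply Finset.card_lt_card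
  rw [Finset.ssubset_iff_of_subset]
  · refine ⟨z, Finset.mem_filter.mpr ⟨mem_univ _, hlt⟩, fun h0 => ?_⟩
    exact absurd (Finset.mem_filter.mp h0).2 (lt_irrefl _)
  · intro y hy
    have hy2 := (Finset.mem_filter.mp hy).2
    refine Finset.mem_filter.mpr ⟨mem_univ _, ?_⟩
    rw [hv α z, hv α y] at hy2
    have h1 : pos z ≤ pos y := by
      by_contra h2
      push Not at h2
      have := hα h2.le
      omega
    rw [hv α' y]
    refine lt_of_lt_of_le hlt ?_
    rw [hv]
    exact hα' h1

/-- **The offsets are determined by their multiset.** -/
theorem unique (hS : ∀ v a a', a ≤ a' → S v a' ⊆ S v a) (he : ∀ x, e x ≤ x) {α α' : ℕ → ℕ}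
    {i i' : Fin m → ℕ} (h : Pth m S α i) (h' : Pth m S α' i')
    (hN : ∀ t, (univ.filter fun z => t < val e α i z).card =
      (univ.filter fun z => t < val e α' i' z).card) :
    val e α i = val e α' i' := by
  classical
  have hi : ∀ k, ∀ v : Fin m, m - v.val = k → α (i v) = α' (i' v) ∧ i v = i' v := by
    intro k
    induction k using Nat.strong_induction_on with
    | _ k ih =>
      intro v hv
      have hup : ∀ w, v < w → i w = i' w := by
        intro w hw
        have h1 : v.val < w.val := hw
        exact (ih (m - w.val) (by have := w.2; omega) w rfl).2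
      have hval : α (i v) = α' (i' v) := by
        rcases lt_trichotomy (α (i v)) (α' (i' v)) with h1 | h1 | h1
        · have := step_lt hS he h h' v hup h1
          rw [hN] at this
          exact absurd this (lt_irrefl _)
        · exact h1
        · have := step_lt hS he h' h v (fun w hw => (hup w hw).symm) h1
          rw [hN] at this
          exact absurd this (lt_irrefl _)
      refine ⟨hval, ?_⟩
      rw [h.cr v, h'.cr v, hval]
  have hii : i = i' := funext fun v => (hi _ v rfl).2
  subst hii
  funext z
  rcases lt_trichotomy (val e α i z) (val e α' i z) with h1 | h1 | h1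
  · have := step_eq h.mono h'.mono z h1
    rw [hN] at this
    exact absurd this (lt_irrefl _)
  · exact h1
  · have := step_eq h'.mono h.mono z h1
    rw [hN] at this
    exact absurd this (lt_irrefl _)

end abstr

end Pool.Agent.TH657.Pat
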