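import Mathlib
import Pool.Agent.TH657.PatF

/-!
# The main inequality with the joint count
-/

namespace Pool.Agent.TH657.Pat

open Pool.Agent.PatDepth Pool.Agent.H344R3.PD Pool.Agent.W1.Pat Finset

/-- the data of the paths: offsets at the crossings and at the sources -/
def Dat (m l : ℕ) (S : Fin m → ℕ → Set ℕ) (e : ℕ → ℕ) : Set ((Fin m → ℕ) × (Fin m → ℕ)) :=
  {d | ∃ (α : ℕ → ℕ) (i : Fin m → ℕ), Pth m S α i ∧ (∀ x, α x ≤ l) ∧
    d.1 = (fun v => α (i v)) ∧ d.2 = fun v => α (e (i v))}

theorem card_Dat {m l : ℕ} {S : Fin m → ℕ → Set ℕ} {e : ℕ → ℕ}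
    (hS : ∀ v a a', a ≤ a' → S v a' ⊆ S v a) (he : ∀ x, e x ≤ x) :
    Finite (Dat m l S e) ∧ Nat.card (Dat m l S e) ≤ (2 * m + l).choose l := by
  classical
  have hch : ∀ d : Dat m l S e, ∃ (α : ℕ → ℕ) (i : Fin m → ℕ), Pth m S α i ∧ (∀ x, α x ≤ l) ∧
    d.1.1 = (fun v => α (i v)) ∧ d.1.2 = fun v => α (e (i v)) := fun d => d.2
  choose α i hP hl h1 h2 using hch
  have hlt : ∀ d z, val e (α d) (i d) z < l + 1 := by
    intro d z
    rcases z with w | w
    · exact Nat.lt_succ_of_le (hl d _)
    · exact Nat.lt_succ_of_le (hl d _)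
  let Φ : Dat m l S e → Sym (Fin (l + 1)) (m + m) := fun d =>
    ⟨(univ : Finset (Fin m ⊕ Fin m)).val.map fun z => ⟨val e (α d) (i d) z, hlt d z⟩, by
      rw [Multiset.card_map]
      show (univ : Finset (Fin m ⊕ Fin m)).card = m + m
      rw [card_univ, Fintype.card_sum, Fintype.card_fin]⟩
  have hΦ : Function.Injective Φ := by
    intro d d' h
    have h3 : ((univ : Finset (Fin m ⊕ Fin m)).val.map fun z =>
        (⟨val e (α d) (i d) z, hlt d z⟩ : Fin (l + 1))) =
        (univ : Finset (Fin m ⊕ Fin m)).val.map fun z => ⟨val e (α d') (i d') z, hlt d' z⟩ :=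
      congrArg Subtype.val h
    have hN : ∀ t, (univ.filter fun z => t < val e (α d) (i d) z).card =
        (univ.filter fun z => t < val e (α d') (i d') z).card := by
      intro t
      have h4 := congrArg (Multiset.countP fun x : Fin (l + 1) => t < x.val) h3
      rw [Multiset.countP_map, Multiset.countP_map] at h4
      exact h4
    have h5 := unique hS he (hP d) (hP d') hN
    apply Subtype.ext
    apply Prod.ext
    · rw [h1 d, h1 d']
      funext v
      exact congrFun h5 (Sum.inl v)
    · rw [h2 d, h2 d']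
      funext v
      exact congrFun h5 (Sum.inr v)
  have hfin : Finite (Sym (Fin (l + 1)) (m + m)) := inferInstance
  refine ⟨Finite.of_injective Φ hΦ, ?_⟩
  refine (Nat.card_le_card_of_injective Φ hΦ).trans ?_
  rw [Nat.card_eq_fintype_card, Sym.card_sym_eq_choose, Fintype.card_fin]
  have h6 : l + 1 + (m + m) - 1 = 2 * m + l := by omega
  rw [h6]
  exact le_of_eq (Nat.choose_symm_of_eq_add (by omega : 2 * m + l = m + m + l))

variable {A : Type} [Fintype A] [Inhabited A]

/-- **Main inequality.** -/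
theorem core3 {p q : List (ℕ ⊕ A)} {l m : ℕ} (h : Lang p ⊆ Lang q)
    (hl : p.length = q.length + l)
    (hm : (2 * m + l).choose l < Fintype.card A ^ m) : nvar p < nvar q + l + m := by
  classical
  by_contra hcon
  push Not at hcon
  have hn : 1 ≤ q.length := by
    by_contra h0
    have h1 := nvar_le_length p
    have hm1 : m = 0 := by omega
    subst hm1
    simp at hm
  have hend : nv q q.length + l + m ≤ nv p (q.length + l) := by
    unfold nv
    rw [← hl, List.take_length, List.take_length]
    exact hcon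
  let T : Fin m → ℕ → Set ℕ := fun v a => S (nv p) (nv q) (v.val + 1) a
  have hT : ∀ v a a', a ≤ a' → T v a' ⊆ T v a := fun v a a' haa =>
    S_anti (nv1 p) le_rfl haa
  have he : ∀ x, fo q x ≤ x := fun x => fo_le q rfl
  obtain ⟨hfin, hcard⟩ := card_Dat (l := l) hT he
  have : Fintype (Dat m l T (fo q)) := Fintype.ofFinite _
  have hmonoD : ∀ δ : Dat m l T (fo q), Monotone δ.1.1 := by
    rintro ⟨⟨a, b⟩, α, i, hP, _, h1, _⟩
    show Monotone a
    have h1' : a = fun v => α (i v) := h1
    rw [h1']
    exact fun v v' hvv => hP.mono (hP.imono hvv)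
  have hcover : (univ : Finset ({x // x ∈ vars p} → A)) ⊆
      (univ : Finset (Dat m l T (fo q))).biUnion fun δ => good p q δ.1.1 δ.1.2 := by
    intro u _
    obtain ⟨α, f, hα, hαl, hf, hfw⟩ := path_exists (h (W_mem p u)) ((W_length p u).trans hl)
    have hcr := fun v : Fin m => crossing (P := nv p) (Q := nv q) (nv1 p) hn hend hα hαl
      (v := v.val + 1) (by have := v.2; omega)
    let iv : Fin m → ℕ := fun v => sInf {i | i ∈ S (nv p) (nv q) (v.val + 1) (α i)}
    have hiv_mono : Monotone iv := by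
      intro v v' hvv
      apply Nat.sInf_le
      have h1 : iv v' ∈ S (nv p) (nv q) (v'.val + 1) (α (iv v')) := (hcr v').2.2.1
      have : v.val ≤ v'.val := hvv
      exact S_anti (nv1 p) (by omega) le_rfl h1
    have hP : Pth m T α iv := by
      refine ⟨hα, hiv_mono, fun v => (hcr v).2.2.1, fun v => (hcr v).2.2.2.symm, ?_⟩
      intro v x hx hx2
      exact absurd (Nat.sInf_le (s := {i | i ∈ S (nv p) (nv q) (v.val + 1) (α i)}) hx2)
        (not_le.mpr hx)
    have hps : ∀ v, ps p q (fun v => α (iv v)) v = iv v := fun v => (hcr v).2.2.2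
    have hd : ((fun v => α (iv v), fun v => α (fo q (iv v))) : (Fin m → ℕ) × (Fin m → ℕ)) ∈
        Dat m l T (fo q) := ⟨α, iv, hP, hαl, rfl, rfl⟩
    rw [mem_biUnion]
    refine ⟨⟨_, hd⟩, mem_univ _, ?_⟩
    show u ∈ good p q (fun v => α (iv v)) (fun v => α (fo q (iv v)))
    unfold good
    rw [mem_filter]
    have hne : ∀ v : Fin m, (S (nv p) (nv q) (v.val + 1) (α (iv v))).Nonempty :=
      fun v => ⟨_, (hcr v).2.2.1⟩
    have hlt : ∀ v, iv v < q.length := fun v => (hcr v).1
    refine ⟨mem_univ _, hne, ?_, ?_⟩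
    · intro v
      rw [hps]
      have h1 := (cr_spec (nv0 p) (nv1 p) (nv2 q) (by omega : 1 ≤ v.val + 1) (hne v)).1
      have h2 : cr (nv p) (nv q) (v.val + 1) (α (iv v)) = iv v := hps v
      rw [h2] at h1
      rcases nv_old (hlt v) h1 with h3 | ⟨y, e, he', h3, h4⟩
      · exact Or.inl h3
      · right
        have h5 : fo q (iv v) ≤ e := fo_le q (by rw [h3, h4])
        have h6 : α (fo q (iv v)) ≤ α (iv v) := hα (by omega)
        show fo q (iv v) + α (fo q (iv v)) < iv v + α (iv v)
        omega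
    · intro v
      rw [hps]
      have h1 : iv v < q.length := hlt v
      obtain ⟨s, hs⟩ : ∃ s, q[iv v]? = some s := ⟨_, List.getElem?_eq_getElem h1⟩
      have h2 := hfw _ _ hs
      have h3 := hfw (fo q (iv v)) s (by rw [fo_spec, hs])
      rw [h2]
      unfold tg
      rw [hs]
      rcases s with y | c
      · simp only [Option.getD_some]
        rw [h3]
        rfl
      · simp only [Option.getD_some]
        exact hf c
  have h1 := card_le_card hcover
  have h2 := h1.trans card_biUnion_le
  rw [card_univ, Fintype.card_fun, Fintype.card_coe, card_vars] at h2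
  have h3 : Fintype.card A ^ nvar p * Fintype.card A ^ m ≤
      Fintype.card (Dat m l T (fo q)) * Fintype.card A ^ nvar p := by
    calc Fintype.card A ^ nvar p * Fintype.card A ^ m
        ≤ (∑ δ : Dat m l T (fo q), (good p q δ.1.1 δ.1.2).card) * Fintype.card A ^ m :=
          Nat.mul_le_mul_right _ h2
      _ = ∑ δ : Dat m l T (fo q), (good p q δ.1.1 δ.1.2).card * Fintype.card A ^ m :=
          sum_mul _ _ _
      _ ≤ ∑ _δ : Dat m l T (fo q), Fintype.card A ^ nvar p :=
          sum_le_sum fun δ _ => good_card p q _ _ (hmonoD δ)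
      _ = _ := by rw [sum_const, card_univ, smul_eq_mul]
  have h4 : Fintype.card A ^ m ≤ Fintype.card (Dat m l T (fo q)) := by
    rw [mul_comm] at h3
    exact Nat.le_of_mul_le_mul_right h3 (by
      have : 0 < Fintype.card A := Fintype.card_pos
      positivity)
  have h5 : Fintype.card (Dat m l T (fo q)) ≤ (2 * m + l).choose l := by
    rw [← Nat.card_eq_fintype_card]
    exact hcard
  omega

end Pool.Agent.TH657.Pat
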