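import Mathlib
import Pool.Agent.TH657.PatG

/-!
# The law and the inclusion depth with the joint count
-/

namespace Pool.Agent.TH657.Pat

open Pool.Agent.PatDepth Pool.Agent.H344R3.PD Pool.Agent.W1.Pat

lemma num_law3 {c s l : ℕ} (hc : 1 ≤ c)
    (hs : (2 * c + 1) ^ (2 * c + 1) ≤ (2 * c) ^ (2 * c) * s ^ c) (hl : 1 ≤ l) :
    (2 * (c * l) + l).choose l < s ^ (c * l) := by
  have h1 := choose_bound (2 * c) l (by omega) hl
  have h0 : 2 * (c * l) + l = (2 * c + 1) * l := by ring
  rw [h0]
  have h3 : ((2 * c + 1) ^ (2 * c + 1)) ^ l ≤ ((2 * c) ^ (2 * c) * s ^ c) ^ l :=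
    Nat.pow_le_pow_left hs l
  have h4 : ((2 * c) ^ (2 * c) * s ^ c) ^ l = s ^ (c * l) * ((2 * c) ^ (2 * c)) ^ l := by
    rw [mul_pow, ← pow_mul s c l]
    exact mul_comm _ _
  rw [h4] at h3
  exact lt_of_mul_lt_mul_right (lt_of_lt_of_le h1 h3) (Nat.zero_le _)

/-- the law with the constant `c` -/
theorem law3 {A : Type} [Fintype A] [Nontrivial A] {p q : List (ℕ ⊕ A)} {c : ℕ} (hc : 1 ≤ c)
    (hs : (2 * c + 1) ^ (2 * c + 1) ≤ (2 * c) ^ (2 * c) * Fintype.card A ^ c)
    (h : Lang p ⊂ Lang q) : (c + 1) * q.length + nvar p < (c + 1) * p.length + nvar q := by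
  have h0 := ne_length h.subset
  rcases Nat.eq_zero_or_pos (p.length - q.length) with h1 | h1
  · have h2 := partOne h (by omega)
    have h3 : p.length = q.length := by omega
    rw [h3] at h2 ⊢
    omega
  · obtain ⟨d⟩ : Nonempty A := inferInstance
    have : Inhabited A := ⟨d⟩
    have h2 := core3 (m := c * (p.length - q.length)) h.subset h0 (num_law3 hc hs h1)
    have h3 : (c + 1) * p.length = (c + 1) * q.length + (c + 1) * (p.length - q.length) := by
      conv_lhs => rw [h0]
      ring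
    have h4 : (c + 1) * (p.length - q.length) = c * (p.length - q.length) +
      (p.length - q.length) := by ring
    omega

/-- the upper bound for the inclusion depth -/
theorem depth_le3 {A : Type} [Fintype A] [Nontrivial A] {c : ℕ} (hc : 1 ≤ c)
    (hs : (2 * c + 1) ^ (2 * c + 1) ≤ (2 * c) ^ (2 * c) * Fintype.card A ^ c)
    {p : List (ℕ ⊕ A)} {n : ℕ} (h : HasChain p n) : n + c + nvar p ≤ (c + 1) * p.length := by
  obtain ⟨f, _, hc0, hcn, hstep⟩ := h
  have key : ∀ i ≤ n, i + c + nvar (f i) ≤ (c + 1) * (f i).length := by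
    intro i
    induction i with
    | zero =>
      intro _
      obtain ⟨h1, h2⟩ := lang_eq_invariant hc0
      have h3 : nvar ([Sum.inl 1] : List (ℕ ⊕ A)) = 1 := by simp [nvar]
      rw [h1, h2, h3]
      simp
    | succ i ih =>
      intro hi
      have h1 := hstep i (by omega)
      have h2 := ih (by omega)
      have h4 := law3 hc hs h1
      omega
  obtain ⟨h1, h2⟩ := lang_eq_invariant hcn
  have := key n le_rfl
  rw [h1, h2] at this
  exact this

end Pool.Agent.TH657.Pat
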